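import Pool.Agent.Q188.Cent.Quad

namespace Q188.Cent

open MeasureTheory Set Module Filter Topology
open scoped ENNReal InnerProductSpace

variable {n : ℕ}

lemma no_model (hn : 2 ≤ n) (φ : V n ≃ᵃ[ℝ] V n) (s : Fin (n + 1) → ℝ) (τ κ : ℝ) (m : Fin (n + 1))
    (hm : s m ≠ 0)
    (h : ∀ y ∈ frontier (Om n), ∑ k, s k * (φ y k) ^ 2 + τ * (φ y 0) + κ = 0) : False := by
  let L : V n ≃ₗ[ℝ] V n := φ.linear
  have hφ : ∀ y k, φ y k = L y k + φ 0 k := by
    intro y k
    have := φ.map_vadd 0 y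
    simp only [vadd_eq_add, add_zero] at this
    rw [this]; rfl
  let B : V n →ₗ[ℝ] V n →ₗ[ℝ] ℝ := LinearMap.mk₂ ℝ (fun x y => ∑ k, s k * (L x k) * (L y k))
    (by intro a b c; simp only [map_add, PiLp.add_apply, ← Finset.sum_add_distrib]
        exact Finset.sum_congr rfl fun k _ => by ring)
    (by intro a b c; simp only [map_smul, PiLp.smul_apply, smul_eq_mul, Finset.mul_sum]
        exact Finset.sum_congr rfl fun k _ => by ring)
    (by intro a b c; simp only [map_add, PiLp.add_apply, ← Finset.sum_add_distrib]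
        exact Finset.sum_congr rfl fun k _ => by ring)
    (by intro a b c; simp only [map_smul, PiLp.smul_apply, smul_eq_mul, Finset.mul_sum]
        exact Finset.sum_congr rfl fun k _ => by ring)
  let ℓ : V n →ₗ[ℝ] ℝ :=
    { toFun := fun x => ∑ k, 2 * s k * φ 0 k * L x k + τ * L x 0
      map_add' := by
        intro x y
        simp only [map_add, PiLp.add_apply, mul_add, Finset.sum_add_distrib]; ring
      map_smul' := by
        intro c x
        simp only [map_smul, PiLp.smul_apply, smul_eq_mul, RingHom.id_apply, mul_add,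
          Finset.mul_sum]
        congr 1
        · exact Finset.sum_congr rfl fun k _ => by ring
        · ring }
  have hB : ∀ x, B x x = 0 := by
    refine no_quadric hn B ℓ (∑ k, s k * (φ 0 k) ^ 2 + τ * φ 0 0 + κ) ?_
    intro y hy
    have h1 := h y hy
    have h2 : ∑ k, s k * (φ y k) ^ 2 = (∑ k, s k * (L y k) * (L y k))
        + (∑ k, 2 * s k * φ 0 k * L y k) + ∑ k, s k * (φ 0 k) ^ 2 := by
      rw [← Finset.sum_add_distrib, ← Finset.sum_add_distrib]
      refine Finset.sum_congr rfl fun k _ => ?_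
      rw [hφ]; ring
    rw [h2, hφ] at h1
    show (∑ k, s k * (L y k) * (L y k)) + (∑ k, 2 * s k * φ 0 k * L y k + τ * L y 0)
      + (∑ k, s k * (φ 0 k) ^ 2 + τ * φ 0 0 + κ) = 0
    linarith
  have h3 := hB (L.symm (EuclideanSpace.single m (1:ℝ)))
  have h4 : ∑ k, s k * (L (L.symm (EuclideanSpace.single m (1:ℝ))) k)
      * (L (L.symm (EuclideanSpace.single m (1:ℝ))) k) = 0 := h3
  rw [L.apply_symm_apply] at h4
  simp at h4
  exact hm h4

lemma haar_hausdorff {F : Type*} [NormedAddCommGroup F] [NormedSpace ℝ F]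
    [FiniteDimensional ℝ F] [MeasurableSpace F] [BorelSpace F] {n : ℕ} (hn : finrank ℝ F = n) :
    (Measure.hausdorffMeasure (n : ℝ) : Measure F).IsAddHaarMeasure := by
  subst hn; infer_instance

lemma wv_ne {u : V n} (hu : ∀ k, u k ≠ 0) : wv u ≠ 0 := by
  intro h
  have := inner_wv hu
  rw [h, inner_zero_right] at this
  norm_num at this

/-- measure and centroid of the sections -/
lemma section_facts {u : V n} (hu : ∀ k l, 0 < u k * u l)
    (hM : finrank ℝ ((ℝ ∙ u)ᗮ : Submodule ℝ (V n)) = n)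
    (hb : ∀ x : V n, Bornology.IsBounded {y | y ∈ Om n ∧ y - x ∈ (ℝ ∙ u)ᗮ}) (x : V n)
    (hne : {y | y ∈ Om n ∧ y - x ∈ (ℝ ∙ u)ᗮ}.Nonempty) :
    0 < (Measure.hausdorffMeasure (n : ℝ) : Measure (V n)) {y | y ∈ Om n ∧ y - x ∈ (ℝ ∙ u)ᗮ} ∧
    (Measure.hausdorffMeasure (n : ℝ) : Measure (V n)) {y | y ∈ Om n ∧ y - x ∈ (ℝ ∙ u)ᗮ} < ∞ ∧
    ((Measure.hausdorffMeasure (n : ℝ) : Measure (V n))
      {y | y ∈ Om n ∧ y - x ∈ (ℝ ∙ u)ᗮ}).toReal⁻¹ •
      ∫ y in {y | y ∈ Om n ∧ y - x ∈ (ℝ ∙ u)ᗮ}, y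
        ∂(Measure.hausdorffMeasure (n : ℝ) : Measure (V n)) = ⟪u, x⟫_ℝ • wv u := by
  have hu0 : ∀ k, u k ≠ 0 := fun k h => by
    have := hu k k; rw [h] at this; norm_num at this
  set s : ℝ := ⟪u, x⟫_ℝ with hs
  set x₀ : V n := s • wv u with hx₀
  have hset : ∀ y : V n, y - x ∈ (ℝ ∙ u)ᗮ ↔ y - x₀ ∈ (ℝ ∙ u)ᗮ := by
    intro y
    rw [Submodule.mem_orthogonal_singleton_iff_inner_right,
      Submodule.mem_orthogonal_singleton_iff_inner_right, inner_sub_right, inner_sub_right, hx₀,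
      inner_smul_right, inner_wv hu0, mul_one]
  have hbS := hb x
  set S : Set (V n) := {y | y ∈ Om n ∧ y - x ∈ (ℝ ∙ u)ᗮ} with hS
  set M : Submodule ℝ (V n) := (ℝ ∙ u)ᗮ with hMdef
  have hrange : S ⊆ range (fun m : M => x₀ + (m : V n)) := by
    intro y hy
    exact ⟨⟨y - x₀, (hset y).1 hy.2⟩, by simp⟩
  have hpre : (fun m : M => x₀ + (m : V n)) ⁻¹' S = {m : M | x₀ + (m : V n) ∈ Om n} := by
    ext m
    constructor
    · intro h; exact h.1
    · intro h
      refine ⟨h, (hset _).2 ?_⟩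
      rw [add_sub_cancel_left]; exact m.2
  have hμ := measure_emb M x₀ n hrange
  have hint := setIntegral_emb M x₀ n hrange (fun y => y)
  rw [hpre] at hμ hint
  have : (Measure.hausdorffMeasure (n : ℝ) : Measure M).IsAddHaarMeasure := haar_hausdorff hM
  have hopen : IsOpen {m : M | x₀ + (m : V n) ∈ Om n} :=
    isOpen_Om.preimage (by fun_prop : Continuous fun m : M => x₀ + (m : V n))
  have hne' : {m : M | x₀ + (m : V n) ∈ Om n}.Nonempty := by
    obtain ⟨y, hy⟩ := hne
    obtain ⟨m, hm⟩ := hrange hy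
    refine ⟨m, ?_⟩
    show x₀ + (m : V n) ∈ Om n
    have hm' : x₀ + (m : V n) = y := hm
    rw [hm']; exact hy.1
  have hbd : Bornology.IsBounded {m : M | x₀ + (m : V n) ∈ Om n} := by
    obtain ⟨C, hC⟩ := hbS.exists_norm_le
    refine isBounded_iff_forall_norm_le.2 ⟨C + ‖x₀‖, fun m hm => ?_⟩
    have h1 : x₀ + (m : V n) ∈ S := by
      refine ⟨hm, (hset _).2 ?_⟩
      rw [add_sub_cancel_left]; exact m.2
    have h2 := hC _ h1
    have h3 : ‖(m : V n)‖ ≤ ‖x₀ + (m : V n)‖ + ‖x₀‖ := by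
      have := norm_sub_le (x₀ + (m : V n)) x₀
      rwa [add_sub_cancel_left] at this
    have h4 : ‖m‖ = ‖(m : V n)‖ := rfl
    rw [h4]; linarith
  have hpos : 0 < (Measure.hausdorffMeasure (n : ℝ) : Measure M)
      {m : M | x₀ + (m : V n) ∈ Om n} := hopen.measure_pos _ hne'
  have hfin : (Measure.hausdorffMeasure (n : ℝ) : Measure M)
      {m : M | x₀ + (m : V n) ∈ Om n} < ∞ := hbd.measure_lt_top
  refine ⟨by rw [hμ]; exact hpos, by rw [hμ]; exact hfin, ?_⟩
  rw [hint, hμ]
  -- the integral over the parameter set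
  set T : Set M := {m : M | x₀ + (m : V n) ∈ Om n} with hT
  have hI1 : IntegrableOn (fun m : M => (m : V n)) T (Measure.hausdorffMeasure (n : ℝ)) := by
    obtain ⟨C, hC⟩ := hbd.exists_norm_le
    refine Measure.integrableOn_of_bounded (M := C) hfin.ne ?_ ?_
    · exact (by fun_prop : Continuous fun m : M => (m : V n)).aestronglyMeasurable
    · filter_upwards [self_mem_ae_restrict hopen.measurableSet] with m hm
      exact hC m hm
  have hI0 : IntegrableOn (fun _ : M => x₀) T (Measure.hausdorffMeasure (n : ℝ)) :=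
    integrableOn_const hfin.ne
  rw [integral_add hI0 hI1]
  have hzero : ∫ m in T, (m : V n) ∂(Measure.hausdorffMeasure (n : ℝ) : Measure M) = 0 := by
    have h1 := integral_zero hu hM s
    have h2 : ∫ m in T, M.subtypeL m ∂(Measure.hausdorffMeasure (n : ℝ) : Measure M)
        = M.subtypeL (∫ m in T, m ∂(Measure.hausdorffMeasure (n : ℝ) : Measure M)) := by
      apply ContinuousLinearMap.integral_comp_comm
      obtain ⟨C, hC⟩ := hbd.exists_norm_le
      refine Measure.integrableOn_of_bounded (M := C) hfin.ne ?_ ?_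
      · exact (continuous_id).aestronglyMeasurable
      · filter_upwards [self_mem_ae_restrict hopen.measurableSet] with m hm
        exact hC m hm
    have h3 : ∫ m in T, m ∂(Measure.hausdorffMeasure (n : ℝ) : Measure M) = 0 := h1
    rw [h3, map_zero] at h2
    exact h2
  rw [hzero, add_zero, setIntegral_const, smul_smul, Measure.real, inv_mul_cancel₀, one_smul]
  exact (ENNReal.toReal_pos hpos.ne' hfin.ne).ne'

end Q188.Cent
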