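import Pool.Agent.Q188.Cent.Fin

namespace Q188.Cent

open MeasureTheory Set Module Filter Topology
open scoped ENNReal InnerProductSpace

variable {n : ℕ}

/-- the boundary satisfies no quadratic equation `‖z‖² + b ⟪e, z⟫² + τ ⟪e, z⟫ + κ = 0` in any affine
coordinates -/
lemma no_model' (hn : 2 ≤ n) (φ : V n ≃ᵃ[ℝ] V n) (e : V n) (b τ κ : ℝ)
    (h : ∀ y ∈ frontier (Om n), ‖φ y‖ ^ 2 + b * ⟪e, φ y⟫_ℝ ^ 2 + τ * ⟪e, φ y⟫_ℝ + κ = 0) :
    False := by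
  let L : V n ≃ₗ[ℝ] V n := φ.linear
  have hφ : ∀ y, φ y = L y + φ 0 := by
    intro y
    have := φ.map_vadd 0 y
    simp only [vadd_eq_add, add_zero] at this
    rw [this]
  let B : V n →ₗ[ℝ] V n →ₗ[ℝ] ℝ := LinearMap.mk₂ ℝ
    (fun x y => ⟪L x, L y⟫_ℝ + b * ⟪e, L x⟫_ℝ * ⟪e, L y⟫_ℝ)
    (by intro a b c; simp only [map_add, inner_add_left, inner_add_right]; ring)
    (by intro a b c; simp only [map_smul, inner_smul_left, inner_smul_right, smul_eq_mul,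
          RCLike.conj_to_real]; ring)
    (by intro a b c; simp only [map_add, inner_add_left, inner_add_right]; ring)
    (by intro a b c; simp only [map_smul, inner_smul_left, inner_smul_right, smul_eq_mul,
          RCLike.conj_to_real]; ring)
  let ℓ : V n →ₗ[ℝ] ℝ :=
    { toFun := fun x => 2 * ⟪φ 0, L x⟫_ℝ + 2 * b * ⟪e, φ 0⟫_ℝ * ⟪e, L x⟫_ℝ + τ * ⟪e, L x⟫_ℝ
      map_add' := by
        intro x y
        simp only [map_add, inner_add_right]; ring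
      map_smul' := by
        intro c x
        simp only [map_smul, inner_smul_right, smul_eq_mul, RingHom.id_apply]; ring }
  have hB : ∀ x, B x x = 0 := by
    refine no_quadric hn B ℓ (‖φ 0‖ ^ 2 + b * ⟪e, φ 0⟫_ℝ ^ 2 + τ * ⟪e, φ 0⟫_ℝ + κ) ?_
    intro y hy
    have h1 := h y hy
    rw [hφ y, norm_add_sq_real, inner_add_right] at h1
    show (⟪L y, L y⟫_ℝ + b * ⟪e, L y⟫_ℝ * ⟪e, L y⟫_ℝ)
      + (2 * ⟪φ 0, L y⟫_ℝ + 2 * b * ⟪e, φ 0⟫_ℝ * ⟪e, L y⟫_ℝ + τ * ⟪e, L y⟫_ℝ)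
      + (‖φ 0‖ ^ 2 + b * ⟪e, φ 0⟫_ℝ ^ 2 + τ * ⟪e, φ 0⟫_ℝ + κ) = 0
    rw [real_inner_self_eq_norm_sq, real_inner_comm (L y) (φ 0)]
    linear_combination h1
  -- a unit vector orthogonal to `e`
  have hdim : 1 ≤ finrank ℝ ((ℝ ∙ e)ᗮ : Submodule ℝ (V n)) := by
    have h2 := (ℝ ∙ e).finrank_add_finrank_orthogonal
    have h3 : finrank ℝ (ℝ ∙ e) ≤ 1 := by
      simpa using finrank_span_le_card (R := ℝ) ({e} : Set (V n))
    rw [finrank_euclideanSpace_fin] at h2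
    omega
  have hnt : Nontrivial ((ℝ ∙ e)ᗮ : Submodule ℝ (V n)) :=
    Module.nontrivial_of_finrank_pos (R := ℝ) (by omega)
  obtain ⟨⟨z, hz⟩, hz0⟩ := exists_ne (0 : ((ℝ ∙ e)ᗮ : Submodule ℝ (V n)))
  rw [Submodule.mem_orthogonal_singleton_iff_inner_right] at hz
  have hz0' : z ≠ 0 := fun h => hz0 (Subtype.ext h)
  have h3 := hB (L.symm z)
  have h4 : ⟪L (L.symm z), L (L.symm z)⟫_ℝ + b * ⟪e, L (L.symm z)⟫_ℝ * ⟪e, L (L.symm z)⟫_ℝ = 0 := h3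
  rw [L.apply_symm_apply, hz, real_inner_self_eq_norm_sq] at h4
  have : 0 < ‖z‖ := norm_pos_iff.2 hz0'
  nlinarith

end Q188.Cent
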