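import Pool.Agent.Q188.Cent.Sec

namespace Q188.Cent

open MeasureTheory Set Module Filter Topology
open scoped ENNReal InnerProductSpace

abbrev V (n : ℕ) := EuclideanSpace ℝ (Fin (n + 1))

def Om (n : ℕ) : Set (V n) := {x | (∀ k, 0 < x k) ∧ 1 < ∏ k, x k}

variable {n : ℕ}

/-- weighted permutation of the coordinates -/
noncomputable def wp (u : V n) (π : Equiv.Perm (Fin (n + 1))) : V n →ₗ[ℝ] V n where
  toFun x := WithLp.toLp 2 (fun k => (u (π k) / u k) * x (π k))
  map_add' x y := by ext k; simp; ring
  map_smul' c x := by ext k; simp; ring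

@[simp] lemma wp_apply (u : V n) (π : Equiv.Perm (Fin (n + 1))) (x : V n) (k : Fin (n + 1)) :
    wp u π x k = (u (π k) / u k) * x (π k) := rfl

lemma wp_wp {u : V n} (hu : ∀ k, u k ≠ 0) {π : Equiv.Perm (Fin (n + 1))} (hπ : ∀ k, π (π k) = k)
    (x : V n) : wp u π (wp u π x) = x := by
  ext k
  have h1 := hu k
  have h2 := hu (π k)
  simp only [wp_apply, hπ]
  field_simp

lemma inner_eq (u x : V n) : ⟪u, x⟫_ℝ = ∑ k, u k * x k := by
  simp [PiLp.inner_apply, mul_comm]

lemma inner_wp {u : V n} (hu : ∀ k, u k ≠ 0) (π : Equiv.Perm (Fin (n + 1))) (x : V n) :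
    ⟪u, wp u π x⟫_ℝ = ⟪u, x⟫_ℝ := by
  rw [inner_eq, inner_eq]
  rw [← Equiv.sum_comp π (fun k => u k * x k)]
  refine Finset.sum_congr rfl fun k _ => ?_
  have h1 := hu k
  simp only [wp_apply]
  field_simp

lemma wp_mem_Om {u : V n} (hu : ∀ k l, 0 < u k * u l) (π : Equiv.Perm (Fin (n + 1))) {x : V n}
    (hx : x ∈ Om n) : wp u π x ∈ Om n := by
  have hu0 : ∀ k, u k ≠ 0 := fun k h => by
    have := hu k k; rw [h] at this; norm_num at this
  have hq : ∀ k, 0 < u (π k) / u k := fun k => by
    have h1 := hu (π k) k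
    have h2 : u (π k) / u k = (u (π k) * u k) / (u k) ^ 2 := by
      have := hu0 k; field_simp
    rw [h2]
    have := hu0 k
    positivity
  refine ⟨fun k => ?_, ?_⟩
  · rw [wp_apply]; exact mul_pos (hq k) (hx.1 _)
  · have h1 : ∏ k, wp u π x k = ∏ k, x k := by
      simp only [wp_apply]
      rw [Finset.prod_mul_distrib, Finset.prod_div_distrib, Equiv.prod_comp π (fun k => u k),
        Equiv.prod_comp π (fun k => x k), div_self (Finset.prod_ne_zero_iff.2 fun k _ => hu0 k),
        one_mul]
    rw [h1]; exact hx.2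

lemma isOpen_Om : IsOpen (Om n) := by
  have h1 : IsOpen {x : V n | ∀ k, 0 < x k} := by
    simp only [Set.ofPred_forall]
    exact isOpen_iInter_of_finite fun k => isOpen_lt continuous_const (by fun_prop)
  have h2 : IsOpen {x : V n | 1 < ∏ k, x k} := isOpen_lt continuous_const (by fun_prop)
  exact h1.inter h2

/-- the restriction of `wp` to the orthogonal complement of `u` -/
lemma wp_mem_orth {u : V n} (hu : ∀ k, u k ≠ 0) (π : Equiv.Perm (Fin (n + 1))) :
    ∀ x ∈ (ℝ ∙ u)ᗮ, wp u π x ∈ (ℝ ∙ u)ᗮ := by
  intro x hx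
  rw [Submodule.mem_orthogonal_singleton_iff_inner_right] at hx ⊢
  rw [inner_wp hu, hx]

/-- the fixed vector -/
noncomputable def wv (u : V n) : V n := WithLp.toLp 2 (fun k => 1 / ((n + 1) * u k))

@[simp] lemma wv_apply (u : V n) (k : Fin (n + 1)) : wv u k = 1 / ((n + 1) * u k) := rfl

lemma inner_wv {u : V n} (hu : ∀ k, u k ≠ 0) : ⟪u, wv u⟫_ℝ = 1 := by
  rw [inner_eq]
  have : ∀ k, u k * wv u k = 1 / (n + 1) := fun k => by
    have := hu k
    rw [wv_apply]; field_simp
  simp only [this]
  rw [Finset.sum_const, Finset.card_univ, Fintype.card_fin, nsmul_eq_mul]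
  push_cast
  have : (n : ℝ) + 1 ≠ 0 := by positivity
  field_simp

lemma wp_wv {u : V n} (hu : ∀ k, u k ≠ 0) (π : Equiv.Perm (Fin (n + 1))) :
    wp u π (wv u) = wv u := by
  ext k
  have h1 := hu k
  have h2 := hu (π k)
  have : (n : ℝ) + 1 ≠ 0 := by positivity
  rw [wp_apply, wv_apply, wv_apply]
  field_simp

lemma integral_zero {u : V n} (hu : ∀ k l, 0 < u k * u l) (hM : finrank ℝ ((ℝ ∙ u)ᗮ : Submodule ℝ (V n)) = n)
    (s : ℝ) :
    ∫ m in {m : ((ℝ ∙ u)ᗮ : Submodule ℝ (V n)) | s • wv u + (m : V n) ∈ Om n}, m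
      ∂(Measure.hausdorffMeasure (n : ℝ) : Measure ((ℝ ∙ u)ᗮ : Submodule ℝ (V n))) = 0 := by
  have hu0 : ∀ k, u k ≠ 0 := fun k h => by
    have := hu k k; rw [h] at this; norm_num at this
  set M : Submodule ℝ (V n) := (ℝ ∙ u)ᗮ with hMdef
  set S : Set M := {m : M | s • wv u + (m : V n) ∈ Om n} with hS
  set v : M := ∫ m in S, m ∂(Measure.hausdorffMeasure (n : ℝ) : Measure M) with hv
  have key : ∀ π : Equiv.Perm (Fin (n + 1)), (∀ k, π (π k) = k) → wp u π (v : V n) = v := by
    intro π hπ
    let σ : M →ₗ[ℝ] M := (wp u π).restrict (wp_mem_orth hu0 π)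
    have hσ : σ ∘ₗ σ = LinearMap.id := by
      ext m : 1
      apply Subtype.ext
      simp only [LinearMap.comp_apply, LinearMap.id_apply]
      show wp u π (wp u π (m : V n)) = m
      exact wp_wp hu0 hπ _
    have hpres := involution_preserves hM σ hσ
    have hpre : σ ⁻¹' S = S := by
      ext m
      have h1 : s • wv u + wp u π (m : V n) = wp u π (s • wv u + (m : V n)) := by
        rw [map_add, map_smul, wp_wv hu0]
      constructor
      · intro h
        have h2 : s • wv u + wp u π (m : V n) ∈ Om n := h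
        rw [h1] at h2
        have h3 := wp_mem_Om hu π h2
        rw [wp_wp hu0 hπ] at h3
        exact h3
      · intro h
        show s • wv u + wp u π (m : V n) ∈ Om n
        rw [h1]
        exact wp_mem_Om hu π h
    have hinj : Function.Injective σ := by
      intro a b hab
      have := congrArg σ hab
      have h2 : ∀ c, σ (σ c) = c := fun c => by
        have := DFunLike.congr_fun hσ c
        simpa using this
      rwa [h2, h2] at this
    have hemb : MeasurableEmbedding σ :=
      (σ.continuous_of_finiteDimensional).measurableEmbedding hinj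
    have h4 : σ v = v := by
      have hcomm : σ v = ∫ m in S, σ m ∂(Measure.hausdorffMeasure (n : ℝ) : Measure M) := by
        by_cases hint : IntegrableOn (fun m : M => m) S (Measure.hausdorffMeasure (n : ℝ))
        · exact ((LinearMap.toContinuousLinearMap σ).integral_comp_comm hint).symm
        · have h5 : v = 0 := integral_undef hint
          have h6 : ¬ IntegrableOn (fun m : M => σ m) S (Measure.hausdorffMeasure (n : ℝ)) := by
            intro h7
            apply hint
            have h8 := (LinearMap.toContinuousLinearMap σ).integrable_comp h7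
            refine h8.congr (Eventually.of_forall fun m => ?_)
            have := DFunLike.congr_fun hσ m
            simpa using this
          rw [h5, map_zero]
          exact (integral_undef h6).symm
      rw [hcomm]
      have h9 := hpres.setIntegral_preimage_emb hemb (fun m : M => m) S
      rw [hpre] at h9
      exact h9
    exact congrArg Subtype.val h4
  have hk : ∀ k l : Fin (n + 1), u k * (v : V n) k = u l * (v : V n) l := by
    intro k l
    have h1 := key (Equiv.swap k l) (fun j => by simp)
    have h2 := congrArg (fun x : V n => x k) h1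
    simp only [wp_apply, Equiv.swap_apply_left] at h2
    have := hu0 k
    rw [← h2]; field_simp
  have hin : ⟪u, (v : V n)⟫_ℝ = 0 := by
    have h1 : (v : V n) ∈ (ℝ ∙ u)ᗮ := v.2
    exact Submodule.mem_orthogonal_singleton_iff_inner_right.1 h1
  rw [inner_eq] at hin
  have hz : ∀ l, u l * (v : V n) l = 0 := by
    intro l
    have h1 : ∑ k, u k * (v : V n) k = (n + 1) * (u l * (v : V n) l) := by
      rw [Finset.sum_congr rfl fun k _ => hk k l]
      simp
    rw [h1] at hin
    have : (n : ℝ) + 1 ≠ 0 := by positivity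
    exact (mul_eq_zero.1 hin).resolve_left this
  apply Subtype.ext
  ext l
  have := (mul_eq_zero.1 (hz l)).resolve_left (hu0 l)
  simpa using this

end Q188.Cent
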