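import Pool.Agent.Q188.Cent.Shape

namespace Q188.Cent

open MeasureTheory Set Module Filter Topology
open scoped ENNReal InnerProductSpace ContDiff

variable {n : ℕ}

/-- the vector with coordinates `a, b, c` at `i, j, l` and `1` elsewhere -/
noncomputable def pt (i j l : Fin (n + 1)) (a b c : ℝ) : V n :=
  WithLp.toLp 2 (fun k => (if k = i then a else 1) * (if k = j then b else 1)
    * (if k = l then c else 1))

noncomputable def one : V n := WithLp.toLp 2 (fun _ => 1)

noncomputable def e (i : Fin (n + 1)) : V n := EuclideanSpace.single i (1:ℝ)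

lemma pt_frontier (i j l : Fin (n + 1)) {a b c : ℝ} (ha : 0 < a) (hb : 0 < b) (hc : 0 < c)
    (h : a * b * c = 1) : pt i j l a b c ∈ frontier (Om n) := by
  apply mem_frontier
  · intro k
    simp only [pt]
    split_ifs <;> positivity
  · simp only [pt]
    rw [Finset.prod_mul_distrib, Finset.prod_mul_distrib]
    simp [h]

lemma pt_eq {i j l : Fin (n + 1)} (hij : i ≠ j) (hil : i ≠ l) (hjl : j ≠ l) (a b c : ℝ) :
    pt i j l a b c = one + (a - 1) • e i + (b - 1) • e j + (c - 1) • e l := by
  ext k
  simp only [pt, one, e, PiLp.add_apply, PiLp.smul_apply, smul_eq_mul, PiLp.single_apply]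
  by_cases h1 : k = i
  · subst h1; simp [hij, hil]
  · by_cases h2 : k = j
    · subst h2; simp [h1, hjl]
    · by_cases h3 : k = l
      · subst h3; simp [h1, h2]
      · simp [h1, h2, h3]

lemma expand (B : V n →ₗ[ℝ] V n →ₗ[ℝ] ℝ) (ℓ : V n →ₗ[ℝ] ℝ) (c₀ : ℝ) (i j l : Fin (n + 1))
    (α β γ : ℝ) :
    B (one + α • e i + β • e j + γ • e l) (one + α • e i + β • e j + γ • e l)
      + ℓ (one + α • e i + β • e j + γ • e l) + c₀
    = (B one one + ℓ one + c₀) + α * (B one (e i) + B (e i) one + ℓ (e i))
      + β * (B one (e j) + B (e j) one + ℓ (e j)) + γ * (B one (e l) + B (e l) one + ℓ (e l))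
      + α ^ 2 * B (e i) (e i) + β ^ 2 * B (e j) (e j) + γ ^ 2 * B (e l) (e l)
      + α * β * (B (e i) (e j) + B (e j) (e i)) + α * γ * (B (e i) (e l) + B (e l) (e i))
      + β * γ * (B (e j) (e l) + B (e l) (e j)) := by
  simp only [map_add, map_smul, LinearMap.add_apply, LinearMap.smul_apply, smul_eq_mul]
  ring

lemma no_quadric (hn : 2 ≤ n) (B : V n →ₗ[ℝ] V n →ₗ[ℝ] ℝ) (ℓ : V n →ₗ[ℝ] ℝ) (c₀ : ℝ)
    (h : ∀ x ∈ frontier (Om n), B x x + ℓ x + c₀ = 0) (x : V n) : B x x = 0 := by
  have key : ∀ i j l : Fin (n + 1), i ≠ j → i ≠ l → j ≠ l →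
      B (e i) (e i) = 0 ∧ B (e i) (e j) + B (e j) (e i) = 0 := by
    intro i j l hij hil hjl
    -- values on the curves
    have hq : ∀ i j l : Fin (n + 1), i ≠ j → i ≠ l → j ≠ l → ∀ a b c : ℝ, 0 < a → 0 < b → 0 < c →
        a * b * c = 1 → (B one one + ℓ one + c₀)
          + (a - 1) * (B one (e i) + B (e i) one + ℓ (e i))
          + (b - 1) * (B one (e j) + B (e j) one + ℓ (e j))
          + (c - 1) * (B one (e l) + B (e l) one + ℓ (e l))
          + (a - 1) ^ 2 * B (e i) (e i) + (b - 1) ^ 2 * B (e j) (e j)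
          + (c - 1) ^ 2 * B (e l) (e l)
          + (a - 1) * (b - 1) * (B (e i) (e j) + B (e j) (e i))
          + (a - 1) * (c - 1) * (B (e i) (e l) + B (e l) (e i))
          + (b - 1) * (c - 1) * (B (e j) (e l) + B (e l) (e j)) = 0 := by
      intro i j l hij hil hjl a b c ha hb hc habc
      have h1 := h _ (pt_frontier i j l ha hb hc habc)
      rw [pt_eq hij hil hjl, expand] at h1
      exact h1
    have two : ∀ i j l : Fin (n + 1), i ≠ j → i ≠ l → j ≠ l →
        B (e i) (e i) = 0 ∧ B (e j) (e j) = 0 ∧ (B one one + ℓ one + c₀) = 0 ∧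
        (B one (e i) + B (e i) one + ℓ (e i)) = (B (e i) (e j) + B (e j) (e i)) ∧
        (B one (e j) + B (e j) one + ℓ (e j)) = (B (e i) (e j) + B (e j) (e i)) := by
      intro i j l hij hil hjl
      have g := hq i j l hij hil hjl
      have g1 := g 1 1 1 one_pos one_pos one_pos (by norm_num)
      have g2 := g 2 (1/2) 1 (by norm_num) (by norm_num) one_pos (by norm_num)
      have g3 := g (1/2) 2 1 (by norm_num) (by norm_num) one_pos (by norm_num)
      have g4 := g 3 (1/3) 1 (by norm_num) (by norm_num) one_pos (by norm_num)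
      have g5 := g (1/3) 3 1 (by norm_num) (by norm_num) one_pos (by norm_num)
      norm_num at g1 g2 g3 g4 g5
      refine ⟨by linarith, by linarith, by linarith, by linarith, by linarith⟩
    obtain ⟨a1, a2, a3, a4, a5⟩ := two i j l hij hil hjl
    obtain ⟨b1, b2, b3, b4, b5⟩ := two i l j hil hij hjl.symm
    obtain ⟨c1, c2, c3, c4, c5⟩ := two j l i hjl hij.symm hil.symm
    have g := hq i j l hij hil hjl 2 2 (1/4) (by norm_num) (by norm_num) (by norm_num) (by norm_num)
    norm_num at g
    refine ⟨a1, by linarith⟩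
  -- existence of third indices
  have third : ∀ i j : Fin (n + 1), ∃ l, i ≠ l ∧ j ≠ l := by
    intro i j
    have hc : ({i, j} : Finset (Fin (n + 1))).card < Fintype.card (Fin (n + 1)) := by
      rw [Fintype.card_fin]
      exact lt_of_le_of_lt Finset.card_le_two (by omega)
    obtain ⟨l, hl⟩ : ∃ l, l ∉ ({i, j} : Finset (Fin (n + 1))) := by
      by_contra hcon
      push Not at hcon
      have : ({i, j} : Finset (Fin (n + 1))) = Finset.univ := Finset.eq_univ_iff_forall.2 hcon
      rw [this, Finset.card_univ] at hc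
      exact lt_irrefl _ hc
    simp only [Finset.mem_insert, Finset.mem_singleton, not_or] at hl
    exact ⟨l, Ne.symm hl.1, Ne.symm hl.2⟩
  have hB : B + B.flip = 0 := by
    refine LinearMap.ext_basis (EuclideanSpace.basisFun (Fin (n + 1)) ℝ).toBasis
      (EuclideanSpace.basisFun (Fin (n + 1)) ℝ).toBasis ?_
    intro i j
    simp only [OrthonormalBasis.coe_toBasis, EuclideanSpace.basisFun_apply, LinearMap.add_apply,
      LinearMap.flip_apply, LinearMap.zero_apply]
    by_cases hij : i = j
    · subst hij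
      obtain ⟨l, hl, -⟩ := third i i
      obtain ⟨m, hm1, hm2⟩ := third i l
      have := (key i l m hl hm1 hm2).1
      unfold e at this
      rw [this]; norm_num
    · obtain ⟨l, hl1, hl2⟩ := third i j
      have := (key i j l hij hl1 hl2).2
      unfold e at this
      exact this
  have := DFunLike.congr_fun (DFunLike.congr_fun hB x) x
  simp only [LinearMap.add_apply, LinearMap.flip_apply, LinearMap.zero_apply] at this
  linarith

end Q188.Cent
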