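import Mathlib

namespace Q188.Cent

open MeasureTheory Set Module Filter Topology
open scoped ENNReal

section general
variable {E : Type*} [NormedAddCommGroup E] [InnerProductSpace ℝ E] [FiniteDimensional ℝ E]
  [MeasurableSpace E] [BorelSpace E]

lemma isometry_emb (M : Submodule ℝ E) (x₀ : E) : Isometry (fun m : M => x₀ + (m : E)) := by
  intro a b
  simp [edist_dist, Subtype.dist_eq]

lemma measurableEmbedding_emb (M : Submodule ℝ E) (x₀ : E) :
    MeasurableEmbedding (fun m : M => x₀ + (m : E)) :=
  (isometry_emb M x₀).isClosedEmbedding.measurableEmbedding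

lemma map_emb (M : Submodule ℝ E) (x₀ : E) (n : ℕ) :
    Measure.map (fun m : M => x₀ + (m : E)) (Measure.hausdorffMeasure (n : ℝ) : Measure M)
      = (Measure.hausdorffMeasure (n : ℝ) : Measure E).restrict
          (range (fun m : M => x₀ + (m : E))) :=
  (isometry_emb M x₀).map_hausdorffMeasure (Or.inl (by positivity))

lemma setIntegral_emb (M : Submodule ℝ E) (x₀ : E) (n : ℕ) {S : Set E}
    (hS : S ⊆ range (fun m : M => x₀ + (m : E))) (f : E → E) :
    ∫ y in S, f y ∂(Measure.hausdorffMeasure (n : ℝ) : Measure E)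
      = ∫ m in (fun m : M => x₀ + (m : E)) ⁻¹' S, f (x₀ + (m : E))
          ∂(Measure.hausdorffMeasure (n : ℝ) : Measure M) := by
  rw [← (measurableEmbedding_emb M x₀).setIntegral_map, map_emb,
    Measure.restrict_restrict' (measurableEmbedding_emb M x₀).measurableSet_range,
    inter_eq_left.2 hS]

lemma measure_emb (M : Submodule ℝ E) (x₀ : E) (n : ℕ) {S : Set E}
    (hS : S ⊆ range (fun m : M => x₀ + (m : E))) :
    (Measure.hausdorffMeasure (n : ℝ) : Measure E) S
      = (Measure.hausdorffMeasure (n : ℝ) : Measure M)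
          ((fun m : M => x₀ + (m : E)) ⁻¹' S) := by
  rw [← (measurableEmbedding_emb M x₀).map_apply, map_emb,
    Measure.restrict_apply' (measurableEmbedding_emb M x₀).measurableSet_range,
    inter_eq_left.2 hS]

/-- an involution preserves the Hausdorff measure of the right dimension -/
lemma involution_preserves {F : Type*} [NormedAddCommGroup F] [NormedSpace ℝ F]
    [FiniteDimensional ℝ F] [MeasurableSpace F] [BorelSpace F] {n : ℕ} (hn : finrank ℝ F = n)
    (σ : F →ₗ[ℝ] F) (hσ : σ ∘ₗ σ = LinearMap.id) :
    MeasurePreserving σ (Measure.hausdorffMeasure (n : ℝ) : Measure F)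
      (Measure.hausdorffMeasure (n : ℝ)) := by
  subst hn
  have hdet : LinearMap.det σ * LinearMap.det σ = 1 := by
    rw [← LinearMap.det_comp, hσ, LinearMap.det_id]
  have h0 : LinearMap.det σ ≠ 0 := by
    intro h; rw [h] at hdet; norm_num at hdet
  have h1 : |(LinearMap.det σ)⁻¹| = 1 := by
    rw [abs_inv]
    have : |LinearMap.det σ| * |LinearMap.det σ| = 1 := by
      rw [← abs_mul, hdet, abs_one]
    have h2 : |LinearMap.det σ| = 1 := by
      nlinarith [abs_nonneg (LinearMap.det σ)]
    rw [h2, inv_one]
  refine ⟨σ.continuous_of_finiteDimensional.measurable, ?_⟩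
  rw [Measure.map_linearMap_addHaar_eq_smul_addHaar _ h0, h1]
  simp

end general

end Q188.Cent
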