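import Pool.Agent.Q188.Cent.Omega

namespace Q188.Cent

open MeasureTheory Set Module Filter Topology
open scoped ENNReal InnerProductSpace ContDiff

variable {n : ℕ}

lemma closure_sub {x : V n} (hx : x ∈ closure (Om n)) : (∀ k, 0 < x k) ∧ 1 ≤ ∏ k, x k := by
  have hcl : IsClosed {x : V n | (∀ k, 0 ≤ x k) ∧ 1 ≤ ∏ k, x k} := by
    have h1 : IsClosed {x : V n | ∀ k, 0 ≤ x k} := by
      simp only [Set.ofPred_forall]
      exact isClosed_iInter fun k => isClosed_le continuous_const (by fun_prop)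
    have h2 : IsClosed {x : V n | 1 ≤ ∏ k, x k} := isClosed_le continuous_const (by fun_prop)
    exact h1.inter h2
  have hsub : Om n ⊆ {x : V n | (∀ k, 0 ≤ x k) ∧ 1 ≤ ∏ k, x k} :=
    fun y hy => ⟨fun k => (hy.1 k).le, hy.2.le⟩
  have h := hcl.closure_subset_iff.2 hsub hx
  refine ⟨fun k => lt_of_le_of_ne (h.1 k) fun h0 => ?_, h.2⟩
  have : ∏ k, x k = 0 := Finset.prod_eq_zero (Finset.mem_univ k) h0.symm
  have := h.2
  linarith

lemma log_ineq {a b x y : ℝ} (ha : 0 < a) (hb : 0 < b) (hab : a + b = 1) (hx : 0 < x)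
    (hy : 0 < y) : a * Real.log x + b * Real.log y ≤ Real.log (a * x + b * y) := by
  have := strictConcaveOn_log_Ioi.concaveOn.2 hx hy ha.le hb.le hab
  simpa using this

lemma log_ineq_lt {a b x y : ℝ} (ha : 0 < a) (hb : 0 < b) (hab : a + b = 1) (hx : 0 < x)
    (hy : 0 < y) (hxy : x ≠ y) :
    a * Real.log x + b * Real.log y < Real.log (a * x + b * y) := by
  have := strictConcaveOn_log_Ioi.2 hx hy hxy ha hb hab
  simpa using this

lemma combo_mem {x y : V n} (hx : (∀ k, 0 < x k) ∧ 1 ≤ ∏ k, x k)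
    (hy : (∀ k, 0 < y k) ∧ 1 ≤ ∏ k, y k) (hxy : x ≠ y) {a b : ℝ} (ha : 0 < a) (hb : 0 < b)
    (hab : a + b = 1) : a • x + b • y ∈ Om n := by
  have hpos : ∀ k, 0 < (a • x + b • y) k := fun k => by
    have h1 := mul_pos ha (hx.1 k)
    have h2 := mul_pos hb (hy.1 k)
    simp only [PiLp.add_apply, PiLp.smul_apply, smul_eq_mul]
    linarith
  refine ⟨hpos, ?_⟩
  obtain ⟨k, hk⟩ : ∃ k, x k ≠ y k := by
    by_contra h
    push Not at h
    exact hxy (by ext k; exact h k)
  by_contra hle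
  push Not at hle
  have h1 : Real.log (∏ k, (a • x + b • y) k) ≤ 0 :=
    Real.log_nonpos (Finset.prod_nonneg fun k _ => (hpos k).le) hle
  rw [Real.log_prod (fun k _ => (hpos k).ne')] at h1
  have h2 : ∑ k, (a * Real.log (x k) + b * Real.log (y k)) <
      ∑ k, Real.log ((a • x + b • y) k) := by
    refine Finset.sum_lt_sum (fun k _ => ?_) ⟨k, Finset.mem_univ k, ?_⟩
    · have := log_ineq ha hb hab (hx.1 k) (hy.1 k)
      simpa using this
    · have := log_ineq_lt ha hb hab (hx.1 k) (hy.1 k) hk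
      simpa using this
  rw [Finset.sum_add_distrib, ← Finset.mul_sum, ← Finset.mul_sum,
    ← Real.log_prod (fun k _ => (hx.1 k).ne'), ← Real.log_prod (fun k _ => (hy.1 k).ne')] at h2
  have h3 := Real.log_nonneg hx.2
  have h4 := Real.log_nonneg hy.2
  have h5 := mul_nonneg ha.le h3
  have h6 := mul_nonneg hb.le h4
  linarith

lemma strictConvex_closure : StrictConvex ℝ (closure (Om n)) := by
  intro x hx y hy hxy a b ha hb hab
  have h := combo_mem (closure_sub hx) (closure_sub hy) hxy ha hb hab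
  have : Om n ⊆ interior (closure (Om n)) := interior_maximal subset_closure isOpen_Om
  exact this h

lemma convex_Om : Convex ℝ (Om n) := by
  intro x hx y hy a b ha hb hab
  rcases eq_or_lt_of_le ha with h | h
  · rw [← h] at hab ⊢; simp at hab; rw [hab]; simpa using hy
  rcases eq_or_lt_of_le hb with h' | h'
  · rw [← h'] at hab ⊢; simp at hab; rw [hab]; simpa using hx
  by_cases hxy : x = y
  · rw [hxy, ← add_smul, hab, one_smul]; exact hy
  · exact combo_mem ⟨hx.1, hx.2.le⟩ ⟨hy.1, hy.2.le⟩ hxy h h' hab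

lemma large_mem {x : V n} (hx : ∀ k, 2 ≤ x k) : x ∈ Om n := by
  refine ⟨fun k => by linarith [hx k], ?_⟩
  have h1 : ∏ _k : Fin (n + 1), (2:ℝ) ≤ ∏ k, x k :=
    Finset.prod_le_prod (fun _ _ => by norm_num) (fun k _ => hx k)
  rw [Finset.prod_const, Finset.card_univ, Fintype.card_fin] at h1
  have h2 : (1:ℝ) < 2 ^ (n + 1) := one_lt_pow₀ (by norm_num) (by omega)
  linarith

lemma nonempty_Om : (Om n).Nonempty := ⟨WithLp.toLp 2 (fun _ => 2), large_mem fun k => by simp⟩

/-- a direction of recession in the hyperplane makes the sections unbounded -/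
lemma no_direction {M : Submodule ℝ (V n)}
    (hb : ∀ x : V n, Bornology.IsBounded {y | y ∈ Om n ∧ y - x ∈ M}) {d : V n} (hd : d ∈ M)
    (hdn : ∀ k, 0 ≤ d k) : d = 0 := by
  by_contra hd0
  set x : V n := WithLp.toLp 2 (fun _ => 2) with hx
  obtain ⟨C, hC⟩ := (hb x).exists_norm_le
  have hdpos : 0 < ‖d‖ := norm_pos_iff.2 hd0
  obtain ⟨t, ht⟩ : ∃ t : ℝ, t = (|C| + ‖x‖ + 1) / ‖d‖ := ⟨_, rfl⟩
  have ht0 : 0 ≤ t := by rw [ht]; positivity
  have hmem : x + t • d ∈ {y | y ∈ Om n ∧ y - x ∈ M} := by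
    refine ⟨large_mem fun k => ?_, ?_⟩
    · have := mul_nonneg ht0 (hdn k)
      simp only [hx, PiLp.add_apply, PiLp.smul_apply, smul_eq_mul]
      linarith
    · rw [add_sub_cancel_left]; exact M.smul_mem _ hd
  have h1 := hC _ hmem
  have h2 : ‖t • d‖ ≤ ‖x + t • d‖ + ‖x‖ := by
    have := norm_sub_le (x + t • d) x
    rwa [add_sub_cancel_left] at this
  rw [norm_smul, Real.norm_of_nonneg ht0] at h2
  have h3 : t * ‖d‖ = |C| + ‖x‖ + 1 := by rw [ht]; field_simp
  have := le_abs_self C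
  linarith

lemma sign_of_bounded (hn : 1 ≤ n) {u : V n}
    (hb : ∀ x : V n, Bornology.IsBounded {y | y ∈ Om n ∧ y - x ∈ (ℝ ∙ u)ᗮ}) :
    ∀ k l, 0 < u k * u l := by
  have hne : ∀ i, u i ≠ 0 := by
    intro i hi
    have h1 : (EuclideanSpace.single i (1:ℝ)) ∈ (ℝ ∙ u)ᗮ := by
      rw [Submodule.mem_orthogonal_singleton_iff_inner_right, inner_eq]
      simp [hi]
    have h2 := no_direction hb h1 (fun k => by
      by_cases h : k = i <;> simp [h])
    have h3 := congrArg (fun x : V n => x i) h2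
    simp at h3
  have hij : ∀ i j, i ≠ j → 0 < u i * u j := by
    intro i j hij
    by_contra hle
    push Not at hle
    have hlt : u i * u j < 0 := lt_of_le_of_ne hle (mul_ne_zero (hne i) (hne j))
    set d : V n := |u j| • EuclideanSpace.single i (1:ℝ) + |u i| • EuclideanSpace.single j (1:ℝ)
      with hd
    have h0 : u i * |u j| + u j * |u i| = 0 := by
      rcases mul_neg_iff.1 hlt with ⟨h1, h2⟩ | ⟨h1, h2⟩
      · rw [abs_of_neg h2, abs_of_pos h1]; ring
      · rw [abs_of_pos h2, abs_of_neg h1]; ring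
    have h1 : d ∈ (ℝ ∙ u)ᗮ := by
      rw [Submodule.mem_orthogonal_singleton_iff_inner_right, inner_eq, ← h0]
      simp [hd, mul_add, Finset.sum_add_distrib]
    have h2 := no_direction hb h1 (fun k => by
      simp only [hd, PiLp.add_apply, PiLp.smul_apply, smul_eq_mul, PiLp.single_apply]
      have := abs_nonneg (u j)
      have := abs_nonneg (u i)
      split_ifs <;> simp <;> positivity)
    have h3 := congrArg (fun x : V n => x i) h2
    simp [hd, hij, hne j] at h3
  intro k l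
  by_cases h : k = l
  · rw [h]; exact mul_self_pos.2 (hne l)
  · exact hij k l h

/-- boundary points -/
lemma mem_frontier {x : V n} (hx : ∀ k, 0 < x k) (hp : ∏ k, x k = 1) : x ∈ frontier (Om n) := by
  rw [frontier, isOpen_Om.interior_eq]
  refine ⟨?_, fun h => by have := h.2; linarith⟩
  have h1 : Tendsto (fun t : ℝ => t • x) (𝓝[>] 1) (𝓝 x) := by
    have : Continuous (fun t : ℝ => t • x) := by fun_prop
    have h2 := this.tendsto 1
    rw [one_smul] at h2
    exact h2.mono_left nhdsWithin_le_nhds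
  refine mem_closure_of_tendsto h1 ?_
  filter_upwards [self_mem_nhdsWithin] with t ht
  have ht1 : (1:ℝ) < t := ht
  refine ⟨fun k => ?_, ?_⟩
  · simp only [PiLp.smul_apply, smul_eq_mul]
    exact mul_pos (by linarith) (hx k)
  · simp only [PiLp.smul_apply, smul_eq_mul]
    rw [Finset.prod_mul_distrib, hp, Finset.prod_const, Finset.card_univ, Fintype.card_fin, mul_one]
    exact one_lt_pow₀ ht1 (by omega)

lemma frontier_prod {x : V n} (hx : x ∈ frontier (Om n)) : (∀ k, 0 < x k) ∧ ∏ k, x k = 1 := by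
  have h1 := closure_sub hx.1
  refine ⟨h1.1, le_antisymm ?_ h1.2⟩
  by_contra h
  push Not at h
  apply hx.2
  rw [isOpen_Om.interior_eq]
  exact ⟨h1.1, h⟩

lemma fderiv_ne {x : V n} (hx : x ∈ frontier (Om n)) :
    fderiv ℝ (fun y : V n => ∏ k, y k - 1) x ≠ 0 := by
  intro h
  have hp := (frontier_prod hx).2
  have hd : DifferentiableAt ℝ (fun y : V n => ∏ k, y k - 1) x := by
    have : ContDiff ℝ 1 (fun y : V n => ∏ k, y k - 1) := by fun_prop
    exact (this.differentiable (by norm_num)) x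
  have h1 : HasDerivAt (fun t : ℝ => t • x) x 1 := by
    simpa using (hasDerivAt_id (1:ℝ)).smul_const x
  have h2 : HasFDerivAt (fun y : V n => ∏ k, y k - 1) (0 : V n →L[ℝ] ℝ) ((1:ℝ) • x) := by
    rw [one_smul, ← h]; exact hd.hasFDerivAt
  have h3 := h2.comp_hasDerivAt (1:ℝ) h1
  have h4 : ((fun y : V n => ∏ k, y k - 1) ∘ fun t : ℝ => t • x) = fun t : ℝ => t ^ (n + 1) - 1 := by
    funext t
    simp only [Function.comp, PiLp.smul_apply, smul_eq_mul]
    rw [Finset.prod_mul_distrib, hp, Finset.prod_const, Finset.card_univ, Fintype.card_fin, mul_one]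
  rw [h4] at h3
  have h5 : HasDerivAt (fun t : ℝ => t ^ (n + 1) - 1) (((n + 1 : ℕ) : ℝ) * 1 ^ n) 1 := by
    have := (hasDerivAt_pow (n + 1) (1:ℝ)).sub_const 1
    simpa using this
  have h6 := h3.unique h5
  simp only [zero_apply, one_pow, mul_one] at h6
  have : (0:ℝ) < ((n + 1 : ℕ) : ℝ) := by positivity
  linarith

end Q188.Cent
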